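import Pool.Agent.Work.MP_118406_fp.Interface

set_option autoImplicit false

/-!
# Block APP: approximation by self-adjoint polynomials
-/

open scoped InnerProductSpace ComplexConjugate Topology BigOperators
open Set Filter MeasureTheory Pool.SI Pool.FR

noncomputable section

namespace Pool.FP

theorem APP_cont {k K : ℕ} (w : List (Fin K)) :
    Continuous fun y : Fin K → (Fk k →L[ℂ] Fk k) => mo y w := by
  have h : Continuous fun y : Fin K → (Fk k →L[ℂ] Fk k) => (w.map y).prod := by
    induction w with
    | nil => simpa using continuous_const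
    | cons i w ih =>
      simp only [List.map_cons, List.prod_cons]
      exact (continuous_apply i).mul ih
  unfold mo
  exact continuous_const.inner (h.clm_apply continuous_const)

theorem APP_near {k K : ℕ} (x : Fin K → (Fk k →L[ℂ] Fk k)) (m : ℕ) (γ : ℝ) (hγ : 0 < γ) :
    ∃ η : ℝ, 0 < η ∧ ∀ y : Fin K → (Fk k →L[ℂ] Fk k), (∀ l, ‖x l - y l‖ ≤ η) →
      ∀ w : List (Fin K), w.length ≤ m → ‖mo y w - mo x w‖ ≤ γ := by
  have hfin : {w : List (Fin K) | w.length ≤ m}.Finite := List.finite_length_le (Fin K) m
  have h1 : ∀ᶠ y in 𝓝 x, ∀ w ∈ {w : List (Fin K) | w.length ≤ m}, ‖mo y w - mo x w‖ < γ := by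
    rw [Filter.eventually_all_finite hfin]
    intro w _
    have h2 := (APP_cont (k := k) w).continuousAt (x := x)
    have h3 := Metric.tendsto_nhds.1 h2 γ hγ
    filter_upwards [h3] with y hy
    rwa [dist_eq_norm] at hy
  obtain ⟨ε, hε, h2⟩ := Metric.eventually_nhds_iff.1 h1
  refine ⟨ε / 2, by positivity, fun y hy w hw => (h2 ?_ w hw).le⟩
  rw [dist_pi_lt_iff hε]
  intro l
  rw [dist_comm, dist_eq_norm]
  exact (hy l).trans_lt (by linarith)

theorem APP_sc {k : ℕ} (i : Fin k) : star (sc i : Fk k →L[ℂ] Fk k) = sc i := by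
  unfold sc
  rw [star_add, ContinuousLinearMap.star_eq_adjoint, ContinuousLinearMap.star_eq_adjoint,
    ContinuousLinearMap.adjoint_adjoint, add_comm]

theorem p_APP : Stmt_APP := by
  intro r μ m γ x hγ hx
  obtain ⟨η, hη, hnear⟩ := APP_near x m γ hγ
  choose p hp using fun l => t_SPL (r + 1) (x l) (hx.mem l) η hη
  choose p' hp' using fun l => t_DAG (Fin (r + 1)) (p l)
  refine ⟨fun l => if l = 0 then FreeAlgebra.ι ℂ 0 else (1 / 2 : ℂ) • (p l + p' l), by simp,
    fun R _ _ _ _ a ha l => ?_, fun w hw => ?_⟩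
  · by_cases hl : l = 0
    · simp only [hl, if_true]
      rw [FreeAlgebra.lift_ι_apply, ha]
    · simp only [hl, if_false]
      rw [map_smul, map_add, hp' l R a ha, star_smul, star_add, star_star, add_comm]
      congr 1
      simp
  · have h1 : ∀ l, ‖x l - ev sc (if l = 0 then FreeAlgebra.ι ℂ 0 else
        (1 / 2 : ℂ) • (p l + p' l))‖ ≤ η := by
      intro l
      by_cases hl : l = 0
      · simp only [hl, if_true]
        rw [FreeAlgebra.lift_ι_apply, hx.zero, sub_self, norm_zero]
        exact hη.le
      · simp only [hl, if_false]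
        rw [map_smul, map_add, hp' l _ sc APP_sc]
        have h2 : x l - (1 / 2 : ℂ) • (ev sc (p l) + star (ev sc (p l))) =
            (1 / 2 : ℂ) • ((x l - ev sc (p l)) + star (x l - ev sc (p l))) := by
          rw [star_sub, hx.sa l]
          module
        rw [h2, norm_smul]
        have h3 : ‖(x l - ev sc (p l)) + star (x l - ev sc (p l))‖ ≤ η + η := by
          refine (norm_add_le _ _).trans ?_
          rw [ContinuousLinearMap.star_eq_adjoint, LinearIsometryEquiv.norm_map]
          exact add_le_add (hp l) (hp l)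
        have h4 : ‖(1 / 2 : ℂ)‖ = 1 / 2 := by norm_num
        rw [h4]
        linarith
    have h5 := hnear _ h1 w hw
    have h6 := hx.mom w hw
    have h7 : mo (fun l => ev sc (if l = 0 then FreeAlgebra.ι ℂ 0 else
        (1 / 2 : ℂ) • (p l + p' l))) w - μ w = (mo (fun l => ev sc (if l = 0 then
        FreeAlgebra.ι ℂ 0 else (1 / 2 : ℂ) • (p l + p' l))) w - mo x w) + (mo x w - μ w) := by ring
    rw [h7]
    refine (norm_add_le _ _).trans ?_
    linarith

end Pool.FP
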