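import Pool.Agent.Work.MP_118406_fp.Interface

set_option autoImplicit false

open scoped InnerProductSpace ComplexConjugate Topology BigOperators
open Set Filter MeasureTheory Pool.SI Pool.FR

noncomputable section

namespace Pool.FP

/-- renaming the letters -/
def CPD_ren {k r : ℕ} : FreeAlgebra ℂ (Fin k × Fin r) →ₐ[ℂ] FreeAlgebra ℂ (Fin (k * r)) :=
  FreeAlgebra.lift ℂ fun a => FreeAlgebra.ι ℂ (finProdFinEquiv a)

theorem CPD_ev_ren {k r : ℕ} {R : Type} [Ring R] [Algebra ℂ R] (z : Fin (k * r) → R)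
    (q : FreeAlgebra ℂ (Fin k × Fin r)) :
    ev z (CPD_ren q) = ev (fun a => z (finProdFinEquiv a)) q := by
  have h : (ev z).comp (CPD_ren (k := k) (r := r)) = ev (fun a => z (finProdFinEquiv a)) := by
    apply FreeAlgebra.hom_ext
    funext a
    simp [CPD_ren, ev]
  exact DFunLike.congr_fun h q

theorem CPD_ev_inc {k r : ℕ} {R : Type} [Ring R] [Algebra ℂ R] (z : Fin k × Fin r → R) (j : Fin k)
    (q : FreeAlgebra ℂ (Fin r)) : ev z (inc j q) = ev (fun l => z (j, l)) q := by
  have h : (ev z).comp (inc (k := k) (r := r) j) = ev (fun l => z (j, l)) := by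
    apply FreeAlgebra.hom_ext
    funext a
    simp [inc, ev]
  exact DFunLike.congr_fun h q

theorem CPD_ev_mnm {ι R : Type} [Ring R] [Algebra ℂ R] (z : ι → R) (w : List ι) :
    ev z (mnm w) = (w.map z).prod := by
  unfold mnm
  rw [map_list_prod, List.map_map]
  congr 1
  apply List.map_congr_left
  intro a _
  simp [ev]

theorem CPD_ev_lift {r : ℕ} {ι R : Type} [Ring R] [Algebra ℂ R] (z : ι → R)
    (P : Fin r → FreeAlgebra ℂ ι) (w : List (Fin r)) :
    (w.map fun l => ev z (P l)).prod = ev z ((w.map P).prod) := by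
  rw [map_list_prod, List.map_map]
  rfl

/-- injective renaming does not change the vacuum expectation -/
theorem CPD_emb (hEMB : Stmt_EMB) (hWRD : Stmt_WRD) {a b : ℕ} (f : Fin a → Fin b)
    (hf : Function.Injective f) (p : FreeAlgebra ℂ (Fin a)) :
    ⟪vac b, (ev (fun l => (sc (f l) : Fk b →L[ℂ] Fk b)) p) (vac b)⟫_ℂ =
      ⟪vac a, (ev (sc : Fin a → (Fk a →L[ℂ] Fk a)) p) (vac a)⟫_ℂ := by
  obtain ⟨c, hc⟩ := hWRD (Fin a) p
  rw [hc, hc]
  unfold Finsupp.sum
  rw [ContinuousLinearMap.sum_apply, ContinuousLinearMap.sum_apply, inner_sum, inner_sum]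
  refine Finset.sum_congr rfl fun w _ => ?_
  rw [ContinuousLinearMap.smul_apply, ContinuousLinearMap.smul_apply, inner_smul_right,
    inner_smul_right]
  congr 1
  have h := hEMB a b f w hf
  unfold tau mon at h
  rw [List.map_map] at h
  exact h

theorem CPD_core (hSDE : Stmt_SDE) (hEMB : Stmt_EMB) (hWRD : Stmt_WRD) (hFMC : Stmt_FMC)
    (hFRS : Stmt_FRS) (hAPP : Stmt_APP) : Stmt_CPD := by
  intro n k r y h S
  -- the moments of `flat y`
  have hmo : ∀ w : List (Fin (k * (r + 1))), mo (flat y) w =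
      vf (fun a : Fin k × Fin (r + 1) => y a.1 a.2) (mnm (w.map finProdFinEquiv.symm)) := by
    intro w
    change _ = ⟪vac (n + 1), (ev (fun a : Fin k × Fin (r + 1) => y a.1 a.2)
      (mnm (w.map finProdFinEquiv.symm))) (vac (n + 1))⟫_ℂ
    rw [CPD_ev_mnm, List.map_map]
    rfl
  refine ⟨⟨fun i => h.mem _ _, fun i => h.sa _ _, ?_⟩, ?_, ?_⟩
  · obtain ⟨M, hM⟩ := h.gen
    refine ⟨M, fun i η hη => ?_⟩
    obtain ⟨q, hq1, hq2⟩ := hM i η hη
    have e : ev (flat y) (CPD_ren q) = ev (fun a : Fin k × Fin (r + 1) => y a.1 a.2) q := by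
      rw [CPD_ev_ren]
      congr 2
      funext a
      simp [flat]
    exact ⟨CPD_ren q, by rw [e]; exact hq1, by rw [e]; exact hq2⟩
  · intro i hi
    obtain ⟨j, _, rfl⟩ := Finset.mem_map.1 hi
    have e : mo (flat y) [finProdFinEquiv (j, (0 : Fin (r + 1))), finProdFinEquiv (j, (0 : Fin (r + 1)))] =
        mo (y j) [0, 0] := by
      simp [mo, flat]
    change mo (flat y) [finProdFinEquiv (j, (0 : Fin (r + 1))),
      finProdFinEquiv (j, (0 : Fin (r + 1)))] = 1
    rw [e]
    have hx : ∀ γ : ℝ, 0 < γ → ‖(1 : ℂ) - mo (y j) [0, 0]‖ ≤ γ := by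
      intro γ hγ
      obtain ⟨x, hx⟩ := h.apx j 2 γ hγ
      have h1 := hx.mom [0, 0] (by simp)
      have h2 : mo x [0, 0] = tau ([0, 0] : List (Fin (r + 1))) := by
        unfold mo tau mon
        simp [hx.zero]
      have h3 : tau ([0, 0] : List (Fin (r + 1))) = 1 := by
        obtain ⟨s1, _, _, s4, _⟩ := hSDE (r + 1)
        rw [s4]
        simp [s1]
      rw [h2, h3] at h1
      exact h1
    have h4 : ‖(1 : ℂ) - mo (y j) [0, 0]‖ ≤ 0 := le_of_forall_pos_le_add fun γ hγ => by
      simpa using hx γ hγ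
    have h5 := norm_le_zero_iff.1 h4
    exact (sub_eq_zero.1 h5).symm
  · intro m γ hγ
    obtain ⟨δ, hδ, hF⟩ := hFMC k (r + 1) _ h.free m γ hγ
    have hP : ∀ j : Fin k, ∃ P : Fin (r + 1) → FreeAlgebra ℂ (Fin (r + 1)), P 0 = FreeAlgebra.ι ℂ 0 ∧
        (∀ (R : Type) [Ring R] [StarRing R] [Algebra ℂ R] [StarModule ℂ R] (a : Fin (r + 1) → R),
          (∀ i, star (a i) = a i) → ∀ l, star (ev a (P l)) = ev a (P l)) ∧
        ∀ w : List (Fin (r + 1)), w.length ≤ m → ‖mo (fun l => ev sc (P l)) w - mo (y j) w‖ ≤ δ := by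
      intro j
      obtain ⟨x, hx⟩ := h.apx j m (δ / 2) (by positivity)
      obtain ⟨P, h1, h2, h3⟩ := hAPP r (mo (y j)) m (δ / 2) x (by positivity) hx
      refine ⟨P, h1, fun R _ _ _ _ => h2 R, fun w hw => ?_⟩
      have := h3 w hw
      rwa [mul_div_cancel₀ _ (two_ne_zero)] at this
    choose P hP0 hPs hPm using hP
    have hψ := hFRS k (r + 1) P
    have hclose := hF _ hψ ?_
    · refine ⟨fun i => CPD_ren (inc (finProdFinEquiv.symm i).1
        (P (finProdFinEquiv.symm i).1 (finProdFinEquiv.symm i).2)), ?_, ?_, ?_⟩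
      · intro i hi
        obtain ⟨j, _, rfl⟩ := Finset.mem_map.1 hi
        change CPD_ren (inc (finProdFinEquiv.symm (finProdFinEquiv (j, (0 : Fin (r + 1))))).1
          (P (finProdFinEquiv.symm (finProdFinEquiv (j, (0 : Fin (r + 1))))).1
            (finProdFinEquiv.symm (finProdFinEquiv (j, (0 : Fin (r + 1))))).2)) =
          FreeAlgebra.ι ℂ (finProdFinEquiv (j, (0 : Fin (r + 1))))
        rw [Equiv.symm_apply_apply]
        change CPD_ren (inc j (P j 0)) = _
        rw [hP0]
        simp [inc, CPD_ren]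
      · intro N A hA i
        change (ev A (CPD_ren _)).IsHermitian
        rw [CPD_ev_ren, CPD_ev_inc]
        have h1 := hPs (finProdFinEquiv.symm i).1 (Mat N)
          (fun l => A (finProdFinEquiv ((finProdFinEquiv.symm i).1, l))) (fun l => hA _)
          (finProdFinEquiv.symm i).2
        exact h1
      · intro w hw
        have h1 := hclose (w.map finProdFinEquiv.symm) (by simpa using hw)
        rw [← hmo w] at h1
        rw [norm_sub_rev]
        have e3 : (vf fun a : Fin k × Fin (r + 1) => (ev fun b : Fin k × Fin (r + 1) =>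
            (sc (finProdFinEquiv b) : Fk (k * (r + 1)) →L[ℂ] Fk (k * (r + 1)))) ((inc a.1) (P a.1 a.2)))
              (mnm (w.map finProdFinEquiv.symm)) =
            mo (fun i : Fin (k * (r + 1)) => (ev (sc : Fin (k * (r + 1)) → (Fk (k * (r + 1)) →L[ℂ] Fk (k * (r + 1)))))
              (CPD_ren (inc (finProdFinEquiv.symm i).1
                (P (finProdFinEquiv.symm i).1 (finProdFinEquiv.symm i).2)))) w := by
          change ⟪vac (k * (r + 1)), (ev (fun a : Fin k × Fin (r + 1) => ev (fun b : Fin k × Fin (r + 1) =>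
            (sc (finProdFinEquiv b) : Fk (k * (r + 1)) →L[ℂ] Fk (k * (r + 1)))) (inc a.1 (P a.1 a.2)))
            (mnm (w.map finProdFinEquiv.symm)) : Fk (k * (r + 1)) →L[ℂ] Fk (k * (r + 1)))
            (vac (k * (r + 1)))⟫_ℂ = _
          rw [CPD_ev_mnm, List.map_map]
          unfold mo
          congr 3
          apply List.map_congr_left
          intro i _
          change ev _ (inc _ _) = ev sc (CPD_ren _)
          rw [CPD_ev_ren]
        rw [← e3]
        exact h1
    · intro j u hu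
      have h1 := hPm j u hu
      rw [norm_sub_rev] at h1
      have e1 : vf (fun a : Fin k × Fin (r + 1) => y a.1 a.2) (inc j (mnm u)) = mo (y j) u := by
        change ⟪vac (n + 1), (ev (fun a : Fin k × Fin (r + 1) => (y a.1 a.2 : Fk (n + 1) →L[ℂ] Fk (n + 1)))
          (inc j (mnm u)) : Fk (n + 1) →L[ℂ] Fk (n + 1)) (vac (n + 1))⟫_ℂ = _
        rw [CPD_ev_inc, CPD_ev_mnm]
        rfl
      rw [e1]
      have e4 : (vf fun a : Fin k × Fin (r + 1) => (ev fun b : Fin k × Fin (r + 1) =>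
          (sc (finProdFinEquiv b) : Fk (k * (r + 1)) →L[ℂ] Fk (k * (r + 1)))) ((inc a.1) (P a.1 a.2)))
            ((inc j) (mnm u)) =
          mo (fun l => (ev (sc : Fin (r + 1) → (Fk (r + 1) →L[ℂ] Fk (r + 1)))) (P j l)) u := by
        change ⟪vac (k * (r + 1)), (ev (fun a : Fin k × Fin (r + 1) => ev (fun b : Fin k × Fin (r + 1) =>
          (sc (finProdFinEquiv b) : Fk (k * (r + 1)) →L[ℂ] Fk (k * (r + 1)))) (inc a.1 (P a.1 a.2)))
          (inc j (mnm u)) : Fk (k * (r + 1)) →L[ℂ] Fk (k * (r + 1))) (vac (k * (r + 1)))⟫_ℂ = _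
        rw [CPD_ev_inc, CPD_ev_mnm]
        unfold mo
        have e2 : (u.map fun l => ev (fun b : Fin k × Fin (r + 1) =>
            (sc (finProdFinEquiv b) : Fk (k * (r + 1)) →L[ℂ] Fk (k * (r + 1)))) (inc j (P j l))).prod =
            ev (fun l => (sc (finProdFinEquiv (j, l)) : Fk (k * (r + 1)) →L[ℂ] Fk (k * (r + 1))))
              ((u.map (P j)).prod) := by
          rw [← CPD_ev_lift]
          congr 1
          apply List.map_congr_left
          intro l _
          rw [CPD_ev_inc]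
        change ⟪vac (k * (r + 1)), ((u.map fun l => ev (fun b : Fin k × Fin (r + 1) =>
            (sc (finProdFinEquiv b) : Fk (k * (r + 1)) →L[ℂ] Fk (k * (r + 1)))) (inc j (P j l))).prod)
            (vac (k * (r + 1)))⟫_ℂ = _
        rw [e2, CPD_emb hEMB hWRD (fun l : Fin (r + 1) => finProdFinEquiv (j, l)) ?_, CPD_ev_lift]
        intro a b hab
        simpa using congrArg Prod.snd (finProdFinEquiv.injective hab)
      rw [e4]
      exact h1

theorem p_CPD (hFMC : Stmt_FMC) (hFRS : Stmt_FRS) (hAPP : Stmt_APP) : Stmt_CPD :=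
  CPD_core t_SDE t_EMB t_WRD hFMC hFRS hAPP

end Pool.FP
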