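import Pool.Agent.Work.MP_118406_fp.Interface

/-!
# Block FMC: the joint moments of free blocks depend continuously on the moments of the blocks
-/

set_option autoImplicit false

open scoped InnerProductSpace ComplexConjugate Topology BigOperators
open Set Filter MeasureTheory Pool.SI Pool.FR

noncomputable section

namespace Pool.FP

variable {k r : ℕ}

theorem FMC_mnm_append {ι : Type} (u v : List ι) : mnm (u ++ v) = mnm u * mnm v := by
  simp [mnm]

/-- the word of a block -/
def FMC_wd (a : Fin k × List (Fin r)) : List (Fin k × Fin r) := a.2.map fun i => (a.1, i)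

theorem FMC_inc_mnm (a : Fin k × List (Fin r)) : inc a.1 (mnm a.2) = mnm (FMC_wd a) := by
  obtain ⟨j, v⟩ := a
  simp only [mnm, FMC_wd, inc, map_list_prod, List.map_map]
  congr 1
  refine List.map_congr_left fun i _ => ?_
  simp

/-- the centred block -/
def FMC_cen (φ : FreeAlgebra ℂ (Fin k × Fin r) →ₗ[ℂ] ℂ) (a : Fin k × List (Fin r)) :
    FreeAlgebra ℂ (Fin r) := mnm a.2 - algebraMap ℂ _ (φ (mnm (FMC_wd a)))

/-- the value of a word followed by centred blocks -/
def FMC_G (φ : FreeAlgebra ℂ (Fin k × Fin r) →ₗ[ℂ] ℂ) (u : List (Fin k × Fin r))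
    (L : List (Fin k × List (Fin r))) : ℂ :=
  φ (mnm u * (L.map fun a => inc a.1 (FMC_cen φ a)).prod)

theorem FMC_G_nil (φ : FreeAlgebra ℂ (Fin k × Fin r) →ₗ[ℂ] ℂ) (u : List (Fin k × Fin r)) :
    FMC_G φ u [] = φ (mnm u) := by
  simp [FMC_G]

theorem FMC_G_cons (φ : FreeAlgebra ℂ (Fin k × Fin r) →ₗ[ℂ] ℂ) (u : List (Fin k × Fin r))
    (a : Fin k × List (Fin r)) (L : List (Fin k × List (Fin r))) :
    FMC_G φ u (a :: L) = FMC_G φ (u ++ FMC_wd a) L - φ (mnm (FMC_wd a)) * FMC_G φ u L := by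
  unfold FMC_G
  rw [List.map_cons, List.prod_cons]
  have h : inc a.1 (FMC_cen φ a) = mnm (FMC_wd a) - algebraMap ℂ _ (φ (mnm (FMC_wd a))) := by
    rw [FMC_cen, map_sub, FMC_inc_mnm, AlgHom.commutes]
  rw [h]
  generalize (L.map fun a => inc a.1 (FMC_cen φ a)).prod = P
  have e2 : φ (mnm (FMC_wd a)) * φ (mnm u * P) = φ (φ (mnm (FMC_wd a)) • (mnm u * P)) := by
    rw [map_smul, smul_eq_mul]
  rw [e2, ← map_sub, FMC_mnm_append]
  congr 1
  rw [Algebra.algebraMap_eq_smul_one, sub_mul, mul_sub, smul_mul_assoc, one_mul, mul_smul_comm,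
    mul_assoc]

/-- the total length -/
def FMC_tot (L : List (Fin k × List (Fin r))) : ℕ := (L.map fun a => a.2.length).sum

theorem FMC_wd_length (a : Fin k × List (Fin r)) : (FMC_wd a).length = a.2.length := by
  simp [FMC_wd]

/-- the word of a list of blocks -/
def FMC_fl (L : List (Fin k × List (Fin r))) : List (Fin k × Fin r) := (L.map FMC_wd).flatten

theorem FMC_dec (w : List (Fin k × Fin r)) : ∃ L : List (Fin k × List (Fin r)),
    (∀ a ∈ L, a.2 ≠ []) ∧ (L.map Prod.fst).IsChain (· ≠ ·) ∧ FMC_fl L = w := by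
  induction w with
  | nil => exact ⟨[], by simp, by simp, by simp [FMC_fl]⟩
  | cons x w ih =>
    obtain ⟨j, i⟩ := x
    obtain ⟨L, h1, h2, h3⟩ := ih
    cases L with
    | nil => exact ⟨[(j, [i])], by simp, by simp, by simpa [FMC_fl, FMC_wd] using h3⟩
    | cons b L =>
      obtain ⟨j', v⟩ := b
      by_cases hj : j = j'
      · subst hj
        refine ⟨(j, i :: v) :: L, ?_, ?_, ?_⟩
        · intro a ha
          rcases List.mem_cons.1 ha with rfl | ha
          · simp
          · exact h1 a (List.mem_cons_of_mem _ ha)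
        · simpa using h2
        · rw [← h3]
          simp [FMC_fl, FMC_wd]
      · refine ⟨(j, [i]) :: (j', v) :: L, ?_, ?_, ?_⟩
        · intro a ha
          rcases List.mem_cons.1 ha with rfl | ha
          · simp
          · exact h1 a ha
        · simp only [List.map_cons] at h2 ⊢
          exact List.IsChain.cons_cons hj h2
        · rw [← h3]
          simp [FMC_fl, FMC_wd]

section main

variable (φ : FreeAlgebra ℂ (Fin k × Fin r) →ₗ[ℂ] ℂ)
  (ψ : ℕ → FreeAlgebra ℂ (Fin k × Fin r) →ₗ[ℂ] ℂ) (m ℓ : ℕ)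

theorem FMC_claim1
    (hb : ∀ a : Fin k × List (Fin r), a.2.length ≤ m →
      Tendsto (fun n => ψ n (mnm (FMC_wd a))) atTop (𝓝 (φ (mnm (FMC_wd a)))))
    (hw : ∀ w : List (Fin k × Fin r), w.length < ℓ →
      Tendsto (fun n => ψ n (mnm w)) atTop (𝓝 (φ (mnm w)))) (hℓ : ℓ ≤ m)
    (L : List (Fin k × List (Fin r))) : ∀ u : List (Fin k × Fin r), u.length + FMC_tot L < ℓ →
      Tendsto (fun n => FMC_G (ψ n) u L) atTop (𝓝 (FMC_G φ u L)) := by
  induction L with
  | nil =>
    intro u hu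
    simp only [FMC_G_nil]
    exact hw u (by simpa [FMC_tot] using hu)
  | cons a L ih =>
    intro u hu
    have hu' : u.length + (a.2.length + FMC_tot L) < ℓ := by simpa [FMC_tot] using hu
    simp only [FMC_G_cons]
    refine (ih _ ?_).sub ((hb a (by omega)).mul (ih _ (by omega)))
    rw [List.length_append, FMC_wd_length]
    omega

theorem FMC_claim2
    (hb : ∀ a : Fin k × List (Fin r), a.2.length ≤ m →
      Tendsto (fun n => ψ n (mnm (FMC_wd a))) atTop (𝓝 (φ (mnm (FMC_wd a)))))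
    (hw : ∀ w : List (Fin k × Fin r), w.length < ℓ →
      Tendsto (fun n => ψ n (mnm w)) atTop (𝓝 (φ (mnm w)))) (hℓ : ℓ ≤ m)
    (L : List (Fin k × List (Fin r))) : ∀ u : List (Fin k × Fin r), (∀ a ∈ L, a.2 ≠ []) →
      u.length + FMC_tot L ≤ ℓ →
      Tendsto (fun n => FMC_G (ψ n) u L - ψ n (mnm (u ++ FMC_fl L))) atTop
        (𝓝 (FMC_G φ u L - φ (mnm (u ++ FMC_fl L)))) := by
  induction L with
  | nil =>
    intro u _ hu
    simp [FMC_G_nil, FMC_fl]
  | cons a L ih =>
    intro u hne hu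
    have hu' : u.length + (a.2.length + FMC_tot L) ≤ ℓ := by simpa [FMC_tot] using hu
    have ha : 1 ≤ a.2.length := List.length_pos_iff.2 (hne a (List.mem_cons_self ..))
    have h1 := ih (u ++ FMC_wd a) (fun b hb' => hne b (List.mem_cons_of_mem _ hb'))
      (by rw [List.length_append, FMC_wd_length]; omega)
    have h2 := (hb a (by omega)).mul (FMC_claim1 φ ψ m ℓ hb hw hℓ L u (by omega))
    have e : FMC_fl (a :: L) = FMC_wd a ++ FMC_fl L := by simp [FMC_fl]
    have h3 := h1.sub h2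
    have e1 : ∀ χ : FreeAlgebra ℂ (Fin k × Fin r) →ₗ[ℂ] ℂ,
        FMC_G χ u (a :: L) - χ (mnm (u ++ FMC_fl (a :: L))) =
        FMC_G χ (u ++ FMC_wd a) L - χ (mnm (u ++ FMC_wd a ++ FMC_fl L)) -
          χ (mnm (FMC_wd a)) * FMC_G χ u L := by
      intro χ
      rw [FMC_G_cons, e, List.append_assoc]
      ring
    simp only [e1]
    exact h3

theorem FMC_zero (hφ : FreeFun k r φ) (L : List (Fin k × List (Fin r))) (hL : L ≠ [])
    (hc : (L.map Prod.fst).IsChain (· ≠ ·)) : FMC_G φ [] L = 0 := by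
  have h := hφ.2 (L.map fun a => (a.1, FMC_cen φ a)) (by simpa using hL)
    (by simpa [List.map_map, Function.comp_def] using hc) ?_
  · rw [List.map_map] at h
    simpa [FMC_G, mnm, Function.comp_def] using h
  · intro b hb
    obtain ⟨a, _, rfl⟩ := List.mem_map.1 hb
    show φ (inc a.1 (FMC_cen φ a)) = 0
    rw [FMC_cen, map_sub, FMC_inc_mnm, AlgHom.commutes, Algebra.algebraMap_eq_smul_one, map_sub,
      map_smul, hφ.1, smul_eq_mul, mul_one, sub_self]

theorem FMC_main (hφ : FreeFun k r φ) (hψ : ∀ n, FreeFun k r (ψ n))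
    (hb : ∀ a : Fin k × List (Fin r), a.2.length ≤ m →
      Tendsto (fun n => ψ n (mnm (FMC_wd a))) atTop (𝓝 (φ (mnm (FMC_wd a))))) :
    ∀ ℓ ≤ m, ∀ w : List (Fin k × Fin r), w.length = ℓ →
      Tendsto (fun n => ψ n (mnm w)) atTop (𝓝 (φ (mnm w))) := by
  intro ℓ
  induction ℓ using Nat.strong_induction_on with
  | _ ℓ ih =>
    intro hℓ w hwl
    obtain ⟨L, h1, h2, h3⟩ := FMC_dec w
    by_cases hL : L = []
    · subst hL
      have : w = [] := by rw [← h3]; simp [FMC_fl]
      subst this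
      have e : (mnm ([] : List (Fin k × Fin r))) = 1 := by simp [mnm]
      simp only [e, hφ.1, (hψ _).1]
      exact tendsto_const_nhds
    · have ht : FMC_tot L = ℓ := by
        rw [← hwl, ← h3]
        simp [FMC_fl, FMC_tot, List.length_flatten, List.map_map, Function.comp_def, FMC_wd_length]
      have h4 := FMC_claim2 φ ψ m ℓ hb (fun w' hw' => ih _ hw' (by omega) w' rfl) hℓ L [] h1
        (by simp [ht])
      simp only [List.nil_append, h3, FMC_zero φ hφ L hL h2, FMC_zero _ (hψ _) L hL h2,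
        zero_sub] at h4
      simpa using h4.neg

end main

theorem p_FMC : Stmt_FMC := by
  intro k r φ hφ m γ hγ
  by_contra hcon
  push Not at hcon
  have h0 : ∀ n : ℕ, (0 : ℝ) < 1 / ((n : ℝ) + 1) := fun n => by positivity
  choose ψ hψ hblk w hwl hw using fun n : ℕ => hcon (1 / ((n : ℝ) + 1)) (h0 n)
  have hb : ∀ a : Fin k × List (Fin r), a.2.length ≤ m →
      Tendsto (fun n => ψ n (mnm (FMC_wd a))) atTop (𝓝 (φ (mnm (FMC_wd a)))) := by
    intro a ha
    rw [tendsto_iff_norm_sub_tendsto_zero]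
    refine squeeze_zero (fun n => norm_nonneg _) (fun n => ?_) tendsto_one_div_add_atTop_nhds_zero_nat
    have := hblk n a.1 a.2 ha
    rw [FMC_inc_mnm a] at this
    rw [norm_sub_rev]
    exact this
  have hmain := FMC_main φ ψ m hφ hψ hb
  have hfin : {w : List (Fin k × Fin r) | w.length ≤ m}.Finite := List.finite_length_le _ _
  have hev : ∀ᶠ n in atTop, ∀ w ∈ {w : List (Fin k × Fin r) | w.length ≤ m},
      ‖φ (mnm w) - ψ n (mnm w)‖ < γ := by
    rw [hfin.eventually_all]
    intro w hw'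
    have h1 := hmain w.length hw' w rfl
    have h2 := (tendsto_iff_norm_sub_tendsto_zero.1 h1).eventually_lt_const hγ
    filter_upwards [h2] with n hn
    rw [norm_sub_rev]
    exact hn
  obtain ⟨n, hn⟩ := hev.exists
  exact absurd (hn (w n) (hwl n)) (not_lt.2 (hw n).le)

end Pool.FP
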