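import Pool.Agent.Work.MP_118406_fp.Interface
import Pool.Agent.Work.MP_118406_fr.B_LOW
import Pool.Agent.Work.MP_118406_fr.S_LOS

set_option autoImplicit false

/-!
# MP_118406_an, theorem FP, block LSG (helper79): copy of `MP_118406_fr/S_LOS.lean` for general families
-/

open scoped InnerProductSpace ComplexConjugate Topology BigOperators
open Set Filter MeasureTheory Pool.SI Pool.FR

noncomputable section

namespace Pool.FP

theorem LSG_MY_mono {k m m' : ℕ} {γ γ' : ℝ} {μ : List (Fin k) → ℂ} {N : ℕ} {A : Fin k → Mat N}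
    (hm : m' ≤ m) (hγ : γ ≤ γ') (h : MY k m γ μ N A) : MY k m' γ' μ N A :=
  ⟨h.1, fun w hw => (h.2 w (hw.trans hm)).trans hγ⟩

theorem p_LSG (hTAG : Stmt_TAG) : Stmt_LSG := by
  have hMXA := t_MXA
  have hOBB := t_OBB
  have hHMB := t_HMB
  have hBDT := t_BDT
  have hEMB := t_EMB
  have hNTH := t_NTH
  have hSPL := t_SPL
  have hCPX := t_CPX
  have hMTC := t_MTC
  have hGEX := t_GEX
  intro n k S y hy θ ε hθ hθ1 hε hε1 hN
  have hp : ∀ j, ∃ p : FreeAlgebra ℂ (Fin (n + 1)), ‖y j - ev sc p‖ ≤ ε := fun j =>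
    hSPL (n + 1) (y j) (hy.mem j) ε hε
  choose p hp using hp
  have hNp : ∀ j ∈ S, Nth θ ((ev sc (p j)) (vac (n + 1))) ≤ 6 * ε ^ 2 := by
    intro j hj
    have h1 := ((hNTH n θ hθ.le hθ1).1 ((ev sc (p j)) (vac (n + 1))) (y j (vac (n + 1)))).2
    have h2 : ‖(ev sc (p j)) (vac (n + 1)) - y j (vac (n + 1))‖ ≤ ε := by
      rw [norm_sub_rev]
      have h3 := (y j - ev sc (p j)).le_opNorm (vac (n + 1))
      rw [LOW_vac, mul_one] at h3
      exact h3.trans (hp j)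
    have h4 := hN j hj
    have h5 : ‖(ev sc (p j)) (vac (n + 1)) - y j (vac (n + 1))‖ ^ 2 ≤ ε ^ 2 :=
      pow_le_pow_left₀ (norm_nonneg _) h2 2
    linarith
  -- the rotation error
  have hG := fun j => hGEX n (p j) θ (ε ^ 2) (by positivity)
  choose mG NG δG hδG hG using hG
  obtain ⟨m₀, hm₀⟩ := LOW_max mG
  obtain ⟨NG₀, hNG₀⟩ := LOW_max NG
  obtain ⟨δ₀, hδ₀, hδ₀'⟩ := LOW_min δG hδG
  -- the polynomials
  obtain ⟨K, hK1, hK⟩ := LOW_common
    (range p ∪ (fun w : List (Fin (n + 1)) => (w.map (FreeAlgebra.ι ℂ)).prod) ''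
      {w : List (Fin (n + 1)) | w.length ≤ m₀})
    ((finite_range p).union ((List.finite_length_le (Fin (n + 1)) m₀).image _))
    (fun q K => ∀ (N : ℕ) (A B : Fin (n + 1) → Mat N), 1 ≤ N → (∀ i, OB 4 (A i)) →
      (∀ i, OB 4 (B i)) → nn (ev A q - ev B q) ≤ K * ∑ i, nn (A i - B i))
    (fun q a b hab h N A B h1 h2 h3 => (h N A B h1 h2 h3).trans
      (mul_le_mul_of_nonneg_right hab (Finset.sum_nonneg fun i _ => LOW_nn_nonneg _)))
    (fun q => by
      obtain ⟨K, -, h⟩ := hBDT (Fin (n + 1)) q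
      exact ⟨K, fun N A B h1 h2 h3 => (h N A B h1 h2 h3).2⟩)
  have hK0 : 0 < K := lt_of_lt_of_le one_pos hK1
  obtain ⟨η, hη, hη1, hη2⟩ : ∃ η : ℝ, 0 < η ∧ K * η ≤ ε ^ 2 ∧ K * η ≤ (δ₀ / 2) ^ 2 := by
    refine ⟨min (ε ^ 2 / K) ((δ₀ / 2) ^ 2 / K), by positivity, ?_, ?_⟩
    · calc K * min (ε ^ 2 / K) ((δ₀ / 2) ^ 2 / K) ≤ K * (ε ^ 2 / K) :=
          mul_le_mul_of_nonneg_left (min_le_left _ _) hK0.le
        _ = ε ^ 2 := by field_simp
    · calc K * min (ε ^ 2 / K) ((δ₀ / 2) ^ 2 / K) ≤ K * ((δ₀ / 2) ^ 2 / K) :=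
          mul_le_mul_of_nonneg_left (min_le_right _ _) hK0.le
        _ = (δ₀ / 2) ^ 2 := by field_simp
  obtain ⟨m₂, δ₂, hδ₂, hM⟩ := hMTC η hη
  obtain ⟨m₃, γ₃, hγ₃, hT⟩ := hTAG n k y hy p ε hε hp (max m₀ m₂) (min (δ₀ / 2) (δ₂ / 2))
    (by positivity)
  obtain ⟨m₄, N₄, γ₄, hγ₄, hC⟩ := hCPX m₂ (δ₂ / 2) (by positivity)
  refine ⟨p, max m₃ m₄, max NG₀ N₄, min γ₃ γ₄, lt_min hγ₃ hγ₄, ?_⟩
  intro N f hNN h1 hf Y x hY hx
  obtain ⟨A, hA3, hAM, hAp⟩ := hT N Y h1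
    (LSG_MY_mono (le_max_left _ _) (min_le_left _ _) hY)
  obtain ⟨hDh, hD4, hDm⟩ := hC N f (hm x) ((le_max_right _ _).trans hNN) h1 hf
    ((hHMB N h1).1 x) fun j hj => (hx j (hj.trans (le_max_right _ _))).trans (min_le_right _ _)
  set D : Mat N := Polynomial.aeval (hm x : Mat N) f with hDdef
  have hA4 : ∀ i, OB 4 (A i) := fun i => ((hOBB N h1).2.2.2.1 3 (A i) (hA3 i)).2.2 4 (by norm_num)
  -- the moments of the first matrix
  have hmom : ∀ j ≤ m₂, ‖ntr ((A 0) ^ j) - ntr (D ^ j)‖ ≤ δ₂ := by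
    intro j hj
    have e1 := hAM.2 (List.replicate j 0) (by
      rw [List.length_replicate]; exact hj.trans (le_max_right _ _))
    rw [List.map_replicate, List.prod_replicate] at e1
    have e2 : tau (List.replicate j (0 : Fin (n + 1))) = cat j := by
      have e3 := hEMB 1 (n + 1) (fun _ => 0) (List.replicate j (0 : Fin 1))
        (Function.injective_of_subsingleton _)
      rw [List.map_replicate] at e3
      exact e3
    rw [e2] at e1
    have e4 := hDm j hj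
    have e5 : min (δ₀ / 2) (δ₂ / 2) ≤ δ₂ / 2 := min_le_right _ _
    calc ‖ntr ((A 0) ^ j) - ntr (D ^ j)‖
        = ‖(ntr ((A 0) ^ j) - cat j) - (ntr (D ^ j) - cat j)‖ := by congr 1; ring
      _ ≤ ‖ntr ((A 0) ^ j) - cat j‖ + ‖ntr (D ^ j) - cat j‖ := norm_sub_le _ _
      _ ≤ δ₂ / 2 + δ₂ / 2 := add_le_add (e1.trans e5) e4
      _ = δ₂ := by ring
  obtain ⟨V, hV, hVη⟩ := hM N (A 0) D h1 (hAM.1 0) hDh (hA4 0) hD4 hmom
  -- the two tuples
  have hA'' : ∀ i, OB 4 (V * A i * star V) := fun i => LOW_OB'' hOBB h1 V hV (A i) (hA3 i)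
  have hA' : ∀ i, OB 4 (LOW_A' D V A i) := by
    intro i
    refine Fin.cases ?_ (fun i => ?_) i
    · simpa [LOW_A'] using hD4
    · simpa [LOW_A'] using hA'' i.succ
  have hsum := LOW_sumle D V A η hVη
  have hdiff : ∀ q ∈ (range p ∪ (fun w : List (Fin (n + 1)) =>
      (w.map (FreeAlgebra.ι ℂ)).prod) '' {w : List (Fin (n + 1)) | w.length ≤ m₀}),
      nn (ev (LOW_A' D V A) q - V * ev A q * star V) ≤ K * η := by
    intro q hq
    rw [← LOW_ev_cj V hV A q]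
    exact (hK q hq N (LOW_A' D V A) (fun i => V * A i * star V) h1 hA' hA'').trans
      (mul_le_mul_of_nonneg_left hsum hK0.le)
  have hMC' : MC (n + 1) m₀ δ₀ N (LOW_A' D V A) := by
    refine ⟨?_, ?_⟩
    · intro i
      refine Fin.cases ?_ (fun i => ?_) i
      · simpa [LOW_A'] using hDh
      · simpa [LOW_A'] using LOW_herm V (A i.succ) (hAM.1 i.succ)
    · intro w hw
      have e1 := hdiff _ (Or.inr ⟨w, hw, rfl⟩)
      simp only [LOW_ev_word] at e1
      have e2 := (hMXA N h1).2.2.2.1 ((w.map (LOW_A' D V A)).prod -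
        V * (w.map A).prod * star V)
      have e3 : ‖ntr ((w.map (LOW_A' D V A)).prod - V * (w.map A).prod * star V)‖ ≤ δ₀ / 2 := by
        have e4 : ‖ntr ((w.map (LOW_A' D V A)).prod - V * (w.map A).prod * star V)‖ ^ 2 ≤
            (δ₀ / 2) ^ 2 := e2.trans (e1.trans hη2)
        exact (pow_le_pow_iff_left₀ (norm_nonneg _) (by positivity) two_ne_zero).1 e4
      have e5 : ntr ((w.map (LOW_A' D V A)).prod - V * (w.map A).prod * star V) =
          ntr ((w.map (LOW_A' D V A)).prod) - ntr ((w.map A).prod) := by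
        have e6 : ntr (V * (w.map A).prod * star V) = ntr ((w.map A).prod) := by
          rw [(hMXA N h1).2.2.2.2.1 (V * (w.map A).prod) (star V), ← mul_assoc, hV.1, one_mul]
        rw [← e6]
        unfold ntr
        rw [Matrix.trace_sub, mul_sub]
      rw [e5] at e3
      have e7 := hAM.2 w (hw.trans (le_max_left _ _))
      have e8 : min (δ₀ / 2) (δ₂ / 2) ≤ δ₀ / 2 := min_le_left _ _
      calc ‖ntr ((w.map (LOW_A' D V A)).prod) - tau w‖
          = ‖(ntr ((w.map (LOW_A' D V A)).prod) - ntr ((w.map A).prod)) +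
              (ntr ((w.map A).prod) - tau w)‖ := by congr 1; ring
        _ ≤ δ₀ / 2 + δ₀ / 2 := (norm_add_le _ _).trans (add_le_add e3 (e7.trans e8))
        _ = δ₀ := by ring
  -- the coordinates
  have hxx : ∀ i : Fin n, ∃ xi : Fin N × Fin N → ℝ, hm xi = V * A i.succ * star V := fun i =>
    (hHMB N h1).2.2.2.2.2.1 _ (LOW_herm V (A i.succ) (hAM.1 i.succ))
  choose xx hxx using hxx
  refine ⟨V, fun i => xx i.1 i.2, hV, LOW_csum hMXA hOBB hHMB h1 V hV A hA3 xx hxx, ?_⟩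
  have hE := fun j => hG j N (LOW_A' D V A) ((hNG₀ j).trans ((le_max_left _ _).trans hNN)) h1
    (LOW_MC_mono (hm₀ j) (hδ₀' j) hMC')
  refine LOS_mk S (gs (Fin n × Fin N × Fin N))
    (fun j g => nn (ev (rotm θ (LOW_A' D V A) (hmk g)) (p j) - ev (LOW_A' D V A) (p j))) _ ε hε
    (fun j g => LOW_nn_nonneg _) (fun j => (hE j).1)
    (fun j hj => (hE j).2.trans (by linarith [hNp j hj])) ?_
  intro g
  refine Finset.sum_le_sum fun j _ => ?_
  have e1 : FF p f x (fun i => Real.cos θ * xx i.1 i.2 + Real.sin θ * g i) j =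
      ev (rotm θ (LOW_A' D V A) (hmk g)) (p j) := by
    unfold FF
    rw [← LOW_rot hHMB h1 θ D V A xx hxx g]
  have e2 : FF p f x (fun i => Real.cos θ * xx i.1 i.2 + Real.sin θ * g i) j -
      V * Y j * star V =
      (ev (rotm θ (LOW_A' D V A) (hmk g)) (p j) - ev (LOW_A' D V A) (p j)) +
      (ev (LOW_A' D V A) (p j) - V * ev A (p j) * star V) +
      V * (ev A (p j) - Y j) * star V := by
    rw [e1, mul_sub, sub_mul]
    abel
  rw [e2]
  have e3 := LOW_nn3 hMXA h1 (ev (rotm θ (LOW_A' D V A) (hmk g)) (p j) - ev (LOW_A' D V A) (p j))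
    (ev (LOW_A' D V A) (p j) - V * ev A (p j) * star V) (V * (ev A (p j) - Y j) * star V)
  rw [LOW_nn_cj hMXA h1 hV] at e3
  have e4 := hdiff (p j) (Or.inl ⟨j, rfl⟩)
  have e5 := hAp j
  linarith

end Pool.FP
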