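import Pool.Agent.Work.MP_118406_fp.Interface
import Pool.Agent.Work.MP_118406_fr.S_LVS

set_option autoImplicit false

/-! Block LVG: the lower bound for the volume of the good perturbations. -/

open scoped InnerProductSpace ComplexConjugate Topology BigOperators
open Set Filter MeasureTheory Pool.SI Pool.FR

noncomputable section

namespace Pool.FP

theorem LVG_nnY {K m N : ℕ} {γ : ℝ} {μ : List (Fin K) → ℂ} (hN : 1 ≤ N)
    (hm2 : 2 ≤ m) (hγ : γ ≤ 1) (Y : Fin K → Mat N) (hY : MY K m γ μ N Y) (j : Fin K)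
    (hj : μ [j, j] = 1) : nn (Y j) ≤ 2 := by
  obtain ⟨hH, hw⟩ := hY
  have h1 := hw [j, j] (by simpa using hm2)
  rw [hj] at h1
  have h2 := ((Pool.FR.t_MXA N hN).1 (Y j)).2.2
  have h3 : star (Y j) = Y j := hH j
  rw [h3] at h2
  simp only [List.map_cons, List.map_nil, List.prod_cons, List.prod_nil, mul_one] at h1
  rw [h2] at h1
  have h4 : ‖((nn (Y j) : ℂ)) - 1‖ = |nn (Y j) - 1| := by
    rw [← Complex.ofReal_one, ← Complex.ofReal_sub, Complex.norm_real, Real.norm_eq_abs]
  rw [h4] at h1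
  have h5 := (abs_le.1 h1).2
  linarith

theorem p_LVG (hLSG : Stmt_LSG) : Stmt_LVG := by
  intro n k S y hy h1S θ ε hθ hθ1 hε hε1 hNt
  have hMXA := Pool.FR.t_MXA
  have hGDE := Pool.FR.t_GDE
  have hGMK := Pool.FR.t_GMK
  have hCTN := Pool.FR.t_CTN
  obtain ⟨p, m, N₀, γ, hγ, H⟩ := hLSG n k S y hy θ ε hθ hθ1 hε hε1 hNt
  refine ⟨p, max m 2, N₀, min γ 1, lt_min hγ one_pos, ?_⟩
  intro N f L v hN0 hN1 hf hv Y x hY hx
  have hY' : MY k m γ (mo y) N Y :=
    ⟨hY.1, fun w hw => (hY.2 w (hw.trans (le_max_left _ _))).trans (min_le_left _ _)⟩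
  obtain ⟨V, c, hV, hc, hbad⟩ := H N f hN0 hN1 hf Y x hY'
    (fun j hj => (hx j (hj.trans (le_max_left _ _))).trans (min_le_left _ _))
  obtain ⟨l, hl⟩ := hv V hV
  have hnn : ∀ j ∈ S, nn (Y j) ≤ 2 := fun j hj =>
    LVG_nnY hN1 (le_max_right _ _) (min_le_right _ _) Y hY j (h1S j hj)
  have hs : 0 < Real.sin θ :=
    Real.sin_pos_of_pos_of_lt_pi hθ (by linarith [Real.pi_gt_three])
  have hEm : MeasurableSet {b : Fin n × Fin N × Fin N → ℝ | GoodS S p f v ε Y x b} :=
    LVS_meas hCTN S p f v ε Y x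
  have hG := hGDE (Fin n × Fin N × Fin N) (fun i => Real.cos θ * c i) (Real.sin θ) _ hs hEm
  have hK := hGMK (Fin n × Fin N × Fin N) 31 (by norm_num)
  have hcard' : Fintype.card (Fin n × Fin N × Fin N) = n * N ^ 2 := by
    simp only [Fintype.card_prod, Fintype.card_fin]
    ring
  have hcard : (Fintype.card (Fin n × Fin N × Fin N) : ℝ) = n * (N : ℝ) ^ 2 := by
    rw [hcard']
    push_cast
    ring
  have hsub : (univ : Set (Fin n × Fin N × Fin N → ℝ)) ⊆
      {g | (fun i => Real.cos θ * c i + Real.sin θ * g i) ∈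
        {b : Fin n × Fin N × Fin N → ℝ | GoodS S p f v ε Y x b}} ∪
      ({g | 144 * S.card * ε ^ 2 < ∑ j ∈ S, nn (FF p f x
          (fun i => Real.cos θ * c i + Real.sin θ * g i) j - V * Y j * star V)} ∪
       {g | 31 * (Fintype.card (Fin n × Fin N × Fin N) : ℝ) < ∑ i, g i ^ 2}) := by
    intro g _
    by_contra hg
    simp only [mem_union, mem_ofPred_eq, not_or, not_lt] at hg
    obtain ⟨hg1, hg2, hg3⟩ := hg
    apply hg1
    refine ⟨?_, l, ?_⟩
    · have h1 : ∀ i, (Real.cos θ * c i + Real.sin θ * g i) ^ 2 ≤ 2 * c i ^ 2 + 2 * g i ^ 2 := by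
        intro i
        have e1 : Real.cos θ ^ 2 ≤ 1 := Real.cos_sq_le_one θ
        have e2 : Real.sin θ ^ 2 ≤ 1 := Real.sin_sq_le_one θ
        have e3 : Real.cos θ ^ 2 * c i ^ 2 ≤ c i ^ 2 := by
          have := mul_le_mul_of_nonneg_right e1 (sq_nonneg (c i))
          linarith
        have e4 : Real.sin θ ^ 2 * g i ^ 2 ≤ g i ^ 2 := by
          have := mul_le_mul_of_nonneg_right e2 (sq_nonneg (g i))
          linarith
        nlinarith [sq_nonneg (Real.cos θ * c i - Real.sin θ * g i)]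
      calc ∑ i, (Real.cos θ * c i + Real.sin θ * g i) ^ 2
          ≤ ∑ i, (2 * c i ^ 2 + 2 * g i ^ 2) := Finset.sum_le_sum fun i _ => h1 i
        _ = 2 * ∑ i, c i ^ 2 + 2 * ∑ i, g i ^ 2 := by
            rw [Finset.sum_add_distrib, Finset.mul_sum, Finset.mul_sum]
        _ ≤ 2 * (9 * n * (N : ℝ) ^ 2) + 2 * (31 * (n * (N : ℝ) ^ 2)) := by
            rw [hcard] at hg3
            linarith
        _ = 80 * n * (N : ℝ) ^ 2 := by ring
    · have h1 : ∀ j ∈ S, nn (FF p f x (fun i => Real.cos θ * c i + Real.sin θ * g i) j -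
          v l * Y j * star (v l)) ≤
          2 * nn (FF p f x (fun i => Real.cos θ * c i + Real.sin θ * g i) j -
            V * Y j * star V) + 16 * ε ^ 2 := by
        intro j hjS
        have e1 := ((hMXA N hN1).2.1
          (FF p f x (fun i => Real.cos θ * c i + Real.sin θ * g i) j - V * Y j * star V)
          (V * Y j * star V - v l * Y j * star (v l))).1
        rw [sub_add_sub_cancel] at e1
        have e2 := hl (Y j)
        have e3 : 4 * ε ^ 2 * nn (Y j) ≤ 4 * ε ^ 2 * 2 :=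
          mul_le_mul_of_nonneg_left (hnn j hjS) (by positivity)
        linarith
      calc ∑ j ∈ S, nn (FF p f x (fun i => Real.cos θ * c i + Real.sin θ * g i) j -
            v l * Y j * star (v l))
          ≤ ∑ j ∈ S, (2 * nn (FF p f x (fun i => Real.cos θ * c i + Real.sin θ * g i) j -
            V * Y j * star V) + 16 * ε ^ 2) := Finset.sum_le_sum fun j hj => h1 j hj
        _ = 2 * ∑ j ∈ S, nn (FF p f x (fun i => Real.cos θ * c i + Real.sin θ * g i) j -
            V * Y j * star V) + S.card * (16 * ε ^ 2) := by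
            rw [Finset.sum_add_distrib, Finset.mul_sum, Finset.sum_const, nsmul_eq_mul]
        _ ≤ 2 * (144 * S.card * ε ^ 2) + S.card * (16 * ε ^ 2) := by linarith
        _ ≤ 400 * S.card * ε ^ 2 := by
            have : (0 : ℝ) ≤ S.card * ε ^ 2 := by positivity
            nlinarith
  have : IsProbabilityMeasure (gs (Fin n × Fin N × Fin N)) := by
    unfold gs
    infer_instance
  have h1 : (1 : ENNReal) ≤ (gs (Fin n × Fin N × Fin N))
      {g | (fun i => Real.cos θ * c i + Real.sin θ * g i) ∈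
        {b : Fin n × Fin N × Fin N → ℝ | GoodS S p f v ε Y x b}} +
      (ENNReal.ofReal (1 / 4) + ENNReal.ofReal (1 / 31)) := by
    calc (1 : ENNReal) = (gs (Fin n × Fin N × Fin N)) univ := (measure_univ).symm
      _ ≤ _ := measure_mono hsub
      _ ≤ _ := measure_union_le _ _
      _ ≤ _ := by
          gcongr
          exact (measure_union_le _ _).trans (add_le_add hbad hK)
  have h2 : ENNReal.ofReal (1 / 2) ≤ (gs (Fin n × Fin N × Fin N))
      {g | (fun i => Real.cos θ * c i + Real.sin θ * g i) ∈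
        {b : Fin n × Fin N × Fin N → ℝ | GoodS S p f v ε Y x b}} := by
    have e1 : ENNReal.ofReal (1 / 4) + ENNReal.ofReal (1 / 31) ≤ ENNReal.ofReal (1 / 2) := by
      rw [← ENNReal.ofReal_add (by norm_num) (by norm_num)]
      exact ENNReal.ofReal_le_ofReal (by norm_num)
    have e2 : ENNReal.ofReal (1 / 2) + ENNReal.ofReal (1 / 2) = 1 := by
      rw [← ENNReal.ofReal_add (by norm_num) (by norm_num)]
      norm_num
    refine (ENNReal.add_le_add_iff_right (ENNReal.ofReal_ne_top (r := 1 / 2))).1 ?_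
    rw [e2]
    exact h1.trans (by gcongr)
  have h3 := h2.trans hG
  rw [hcard'] at h3
  have hQ : 0 < (Real.sqrt (2 * Real.pi) * Real.sin θ) ^ (n * N ^ 2) := by positivity
  calc ENNReal.ofReal (1 / 2 * (Real.sqrt (2 * Real.pi) * Real.sin θ) ^ (n * N ^ 2))
      = ENNReal.ofReal ((Real.sqrt (2 * Real.pi) * Real.sin θ) ^ (n * N ^ 2)) *
          ENNReal.ofReal (1 / 2) := by rw [mul_comm, ENNReal.ofReal_mul hQ.le]
    _ ≤ ENNReal.ofReal ((Real.sqrt (2 * Real.pi) * Real.sin θ) ^ (n * N ^ 2)) *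
          (ENNReal.ofReal (((Real.sqrt (2 * Real.pi) * Real.sin θ) ^ (n * N ^ 2))⁻¹) *
            volume {b : Fin n × Fin N × Fin N → ℝ | GoodS S p f v ε Y x b}) := by
        gcongr
    _ = volume {b : Fin n × Fin N × Fin N → ℝ | GoodS S p f v ε Y x b} := by
        rw [← mul_assoc, ← ENNReal.ofReal_mul hQ.le, mul_inv_cancel₀ hQ.ne', ENNReal.ofReal_one,
          one_mul]

end Pool.FP
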