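import Pool.Agent.Work.MP_118406_fp.Interface

set_option autoImplicit false

/-!
# Block MGP: polynomials in microstates are microstates
-/

open scoped InnerProductSpace ComplexConjugate Topology BigOperators
open Set Filter MeasureTheory Pool.SI Pool.FR

noncomputable section

namespace Pool.FP

theorem MGP_ev {K : ℕ} {R : Type} [Ring R] [Algebra ℂ R] (P : Fin K → FreeAlgebra ℂ (Fin K))
    (a : Fin K → R) (w : List (Fin K)) :
    (w.map fun i => ev a (P i)).prod = ev a ((w.map P).prod) := by
  rw [map_list_prod, List.map_map]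
  rfl

theorem p_MGP : Stmt_MGP := by
  intro K S μ m γ P hγ hP
  classical
  choose c hc using fun w : List (Fin K) => t_WRD (Fin K) ((w.map P).prod)
  have hfin : {w : List (Fin K) | w.length ≤ m}.Finite := List.finite_length_le _ _
  obtain ⟨B, hB⟩ : ∃ B : ℝ, B = ∑ w ∈ hfin.toFinset, ∑ u ∈ (c w).support, ‖c w u‖ := ⟨_, rfl⟩
  have hB0 : 0 ≤ B := by
    rw [hB]
    exact Finset.sum_nonneg fun w _ => Finset.sum_nonneg fun u _ => norm_nonneg _
  have hden : (0 : ℝ) < B + 1 := by linarith
  refine ⟨∑ w ∈ hfin.toFinset, ∑ u ∈ (c w).support, u.length, γ / (B + 1), div_pos hγ hden,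
    fun N A _ hMC => ⟨⟨fun i => hP.her N A hMC.1 i, fun w hw => ?_⟩, fun i hi => ?_⟩⟩
  · have hwm : w ∈ hfin.toFinset := hfin.mem_toFinset.2 hw
    have h1 : ntr ((w.map fun i => ev A (P i)).prod) =
        ∑ u ∈ (c w).support, c w u * ntr ((u.map A).prod) := by
      rw [MGP_ev, hc w (Mat N) A, Finsupp.sum, ntr, Matrix.trace_sum, Finset.mul_sum]
      refine Finset.sum_congr rfl fun u _ => ?_
      rw [Matrix.trace_smul, smul_eq_mul, ntr, mul_left_comm]
    have h2 : mo (fun i => (ev sc (P i) : Fk K →L[ℂ] Fk K)) w =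
        ∑ u ∈ (c w).support, c w u * tau u := by
      rw [mo, MGP_ev, hc w _ sc, Finsupp.sum, _root_.sum_apply, inner_sum]
      refine Finset.sum_congr rfl fun u _ => ?_
      rw [_root_.smul_apply, inner_smul_right, tau]
      rfl
    have h3 : ‖ntr ((w.map fun i => ev A (P i)).prod) -
        mo (fun i => (ev sc (P i) : Fk K →L[ℂ] Fk K)) w‖ ≤ γ := by
      rw [h1, h2, ← Finset.sum_sub_distrib]
      refine (norm_sum_le _ _).trans ?_
      calc ∑ u ∈ (c w).support, ‖c w u * ntr ((u.map A).prod) - c w u * tau u‖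
          ≤ ∑ u ∈ (c w).support, ‖c w u‖ * (γ / (B + 1)) := by
            refine Finset.sum_le_sum fun u hu => ?_
            rw [← mul_sub, norm_mul]
            refine mul_le_mul_of_nonneg_left (hMC.2 u ?_) (norm_nonneg _)
            refine (Finset.single_le_sum (f := fun u : List (Fin K) => u.length)
              (fun _ _ => Nat.zero_le _) hu).trans ?_
            exact Finset.single_le_sum
              (f := fun w : List (Fin K) => ∑ u ∈ (c w).support, u.length)
              (fun _ _ => Nat.zero_le _) hwm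
        _ = (∑ u ∈ (c w).support, ‖c w u‖) * (γ / (B + 1)) := by rw [Finset.sum_mul]
        _ ≤ B * (γ / (B + 1)) := by
            refine mul_le_mul_of_nonneg_right ?_ (div_pos hγ hden).le
            rw [hB]
            exact Finset.single_le_sum
              (f := fun w : List (Fin K) => ∑ u ∈ (c w).support, ‖c w u‖)
              (fun _ _ => Finset.sum_nonneg fun _ _ => norm_nonneg _) hwm
        _ ≤ γ := by
            have e1 : (B + 1) * (γ / (B + 1)) = γ := mul_div_cancel₀ γ hden.ne'
            have e2 : 0 < γ / (B + 1) := div_pos hγ hden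
            nlinarith
    have h4 := hP.mom w hw
    calc ‖ntr ((w.map fun i => ev A (P i)).prod) - μ w‖
        = ‖(ntr ((w.map fun i => ev A (P i)).prod) -
            mo (fun i => (ev sc (P i) : Fk K →L[ℂ] Fk K)) w) +
            (mo (fun i => (ev sc (P i) : Fk K →L[ℂ] Fk K)) w - μ w)‖ := by
          rw [sub_add_sub_cancel]
      _ ≤ γ + γ := (norm_add_le _ _).trans (add_le_add h3 h4)
      _ = 2 * γ := by ring
  · rw [hP.fix i hi]
    simp [ev]

end Pool.FP
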