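import Pool.Agent.Work.MP_118406_fp.B_TRG
import Pool.Agent.Work.MP_118406_fp.B_TAG
import Pool.Agent.Work.MP_118406_fp.B_LSG
import Pool.Agent.Work.MP_118406_fp.B_LVG
import Pool.Agent.Work.MP_118406_fp.B_MGP
import Pool.Agent.Work.MP_118406_fp.B_ASG
import Pool.Agent.Work.MP_118406_fp.B_COG
import Pool.Agent.Work.MP_118406_fp.B_CRG
import Pool.Agent.Work.MP_118406_fp.B_DRG
import Pool.Agent.Work.MP_118406_fp.B_FMC
import Pool.Agent.Work.MP_118406_fp.B_FRS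
import Pool.Agent.Work.MP_118406_fp.B_APP
import Pool.Agent.Work.MP_118406_fp.B_CPD

set_option autoImplicit false

noncomputable section

namespace Pool.FP

theorem t_TRG : Stmt_TRG := p_TRG
theorem t_TAG : Stmt_TAG := p_TAG t_TRG
theorem t_LSG : Stmt_LSG := p_LSG t_TAG
theorem t_LVG : Stmt_LVG := p_LVG t_LSG
theorem t_MGP : Stmt_MGP := p_MGP
theorem t_ASG : Stmt_ASG := p_ASG t_LVG t_MGP
theorem t_COG : Stmt_COG := p_COG t_ASG
theorem t_CRG : Stmt_CRG := p_CRG t_COG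
theorem t_DRG : Stmt_DRG := p_DRG t_COG
theorem t_FMC : Stmt_FMC := p_FMC
theorem t_FRS : Stmt_FRS := p_FRS
theorem t_APP : Stmt_APP := p_APP
theorem t_CPD : Stmt_CPD := p_CPD t_FMC t_FRS t_APP

end Pool.FP
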