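import Pool.Agent.Work.MP_118406_fp.Interface
import Pool.Agent.Work.MP_118406_hc.All

set_option autoImplicit false

/-!
# Block FRS: disjoint blocks of semicircular operators are free
-/

open scoped InnerProductSpace ComplexConjugate Topology BigOperators
open Set Filter MeasureTheory Pool.SI Pool.FR

noncomputable section

namespace Pool.FP

/-- The indices of the block `j`. -/
def FRS_T (k r : ℕ) (j : Fin k) (i : Fin (k * r)) : Prop := (finProdFinEquiv.symm i).1 = j

/-- The semicircular operators, indexed by pairs. -/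
def FRS_Z (k r : ℕ) (b : Fin k × Fin r) : Fk (k * r) →L[ℂ] Fk (k * r) := sc (finProdFinEquiv b)

theorem FRS_mem (k r : ℕ) (j : Fin k) (q : FreeAlgebra ℂ (Fin r)) :
    ev (FRS_Z k r) (inc j q) ∈ Pool.HC.AG (FRS_T k r j) := by
  obtain ⟨-, -, -, -, -, -, c7⟩ := Pool.HC.t_CEN
  induction q using FreeAlgebra.induction with
  | grade0 c =>
    rw [AlgHom.commutes, AlgHom.commutes]
    exact algebraMap_mem _ c
  | grade1 x =>
    have h : ev (FRS_Z k r) (inc j (FreeAlgebra.ι ℂ x)) = sc (finProdFinEquiv (j, x)) := by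
      simp [inc, ev, FRS_Z]
    rw [h]
    exact c7 _ _ _ (by simp [FRS_T])
  | mul a b ha hb =>
    rw [map_mul, map_mul]
    exact mul_mem ha hb
  | add a b ha hb =>
    rw [map_add, map_add]
    exact add_mem ha hb

theorem FRS_comp (k r : ℕ) (P : Fin k → Fin r → FreeAlgebra ℂ (Fin r)) (j : Fin k)
    (q : FreeAlgebra ℂ (Fin r)) :
    ev (fun a : Fin k × Fin r => ev (FRS_Z k r) (inc a.1 (P a.1 a.2))) (inc j q) =
      ev (FRS_Z k r) (inc j (FreeAlgebra.lift ℂ (P j) q)) := by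
  induction q using FreeAlgebra.induction with
  | grade0 c => simp only [AlgHom.commutes]
  | grade1 x => simp [inc, ev]
  | mul a b ha hb => simp only [map_mul, ha, hb]
  | add a b ha hb => simp only [map_add, ha, hb]

theorem FRS_main (k r : ℕ) (P : Fin k → Fin r → FreeAlgebra ℂ (Fin r))
    (L : List (Fin k × FreeAlgebra ℂ (Fin r))) :
    ∀ a : Fin k × FreeAlgebra ℂ (Fin r), ((a :: L).map Prod.fst).IsChain (· ≠ ·) →
      (∀ b ∈ a :: L, vf (fun a : Fin k × Fin r => ev (FRS_Z k r) (inc a.1 (P a.1 a.2)))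
        (inc b.1 b.2) = 0) →
      (ev (fun a : Fin k × Fin r => ev (FRS_Z k r) (inc a.1 (P a.1 a.2)))
        (((a :: L).map fun b => inc b.1 b.2).prod)) (vac (k * r)) ∈
        Pool.HC.Hp (FRS_T k r a.1) := by
  obtain ⟨-, -, c3, c4, -, -, -⟩ := Pool.HC.t_CEN
  induction L with
  | nil =>
    intro a _ h0
    have h1 := h0 a (by simp)
    have h2 := Pool.HC.t_GEX (k * r) (FRS_T k r a.1) _
      (FRS_mem k r a.1 (FreeAlgebra.lift ℂ (P a.1) a.2)) (vac (k * r)) (c4 _ _)
    rw [← FRS_comp k r P a.1 a.2] at h2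
    have h3 : Pool.HC.tau (ev (fun a : Fin k × Fin r => ev (FRS_Z k r) (inc a.1 (P a.1 a.2)))
        (inc a.1 a.2)) = 0 := h1
    rw [h3, zero_smul, sub_zero] at h2
    simpa using h2
  | cons b L ih =>
    intro a hc h0
    have h1 := h0 a (by simp)
    have hc' : a.1 ≠ b.1 ∧ ((b :: L).map Prod.fst).IsChain (· ≠ ·) := by
      simpa [List.isChain_cons_cons] using hc
    have hb := ih b hc'.2 (fun c hm => h0 c (List.mem_cons_of_mem _ hm))
    have hb' := c3 (k * r) (FRS_T k r b.1) (FRS_T k r a.1)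
      (fun i h1 h2 => hc'.1 (h2.symm.trans h1)) hb
    have h2 := Pool.HC.t_GEX (k * r) (FRS_T k r a.1) _
      (FRS_mem k r a.1 (FreeAlgebra.lift ℂ (P a.1) a.2)) _ hb'
    rw [← FRS_comp k r P a.1 a.2] at h2
    have h3 : Pool.HC.tau (ev (fun a : Fin k × Fin r => ev (FRS_Z k r) (inc a.1 (P a.1 a.2)))
        (inc a.1 a.2)) = 0 := h1
    rw [h3, zero_smul, sub_zero] at h2
    rw [List.map_cons, List.prod_cons, map_mul, ContinuousLinearMap.mul_apply]
    exact h2

theorem p_FRS : Stmt_FRS := by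
  intro k r P
  obtain ⟨-, -, -, -, c5, -, -⟩ := Pool.HC.t_CEN
  refine ⟨?_, ?_⟩
  · change ⟪vac (k * r), (ev (fun a : Fin k × Fin r => ev (FRS_Z k r) (inc a.1 (P a.1 a.2))) 1)
      (vac (k * r))⟫_ℂ = 1
    rw [map_one, ContinuousLinearMap.one_apply, vac, bs_inner, bs_apply]
    simp
  · intro L hL hc h0
    obtain ⟨a, L, rfl⟩ := List.exists_cons_of_ne_nil hL
    exact c5 _ _ _ (FRS_main k r P L a hc h0)

end Pool.FP
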