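import Pool.Agent.Work.MP_118406_fr.All

set_option autoImplicit false

/-!
# Free products of arbitrary algebras: definitions

The generating families `y` of `Work/MP_118406_fr` are semicircular; here `y : Fin K → ..` is an arbitrary family of
self-adjoint elements of `Alg (n + 1)`, `mo y` its joint moments, and `S` is a set of indices for which the
`y j` are compared.  `Dat` says that the GUE tuples `G` extend to microstates `Y` of `y` with `Y j = G j` for `j ∈ S`.
`Cop` is a family `y j l`, `j : Fin k`, `l : Fin (r + 1)`, whose blocks `j` are free and approximable.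
-/

open scoped InnerProductSpace ComplexConjugate Topology BigOperators
open Set Filter MeasureTheory Pool.SI Pool.FR

noncomputable section

namespace Pool.FP

/-- The joint moments of a family of operators on the Fock space. -/
def mo {k K : ℕ} (y : Fin K → (Fk k →L[ℂ] Fk k)) (w : List (Fin K)) : ℂ :=
  ⟪vac k, ((w.map y).prod) (vac k)⟫_ℂ

/-- Matrix microstates for the moments `μ`. -/
def MY (K m : ℕ) (γ : ℝ) (μ : List (Fin K) → ℂ) (N : ℕ) (A : Fin K → Mat N) : Prop :=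
  (∀ i, (A i).IsHermitian) ∧
    ∀ w : List (Fin K), w.length ≤ m → ‖ntr ((w.map A).prod) - μ w‖ ≤ γ

/-- A self-adjoint family which generates a weakly dense subalgebra of `Alg (n + 1)`. -/
structure GenG (n K : ℕ) (y : Fin K → (Fk (n + 1) →L[ℂ] Fk (n + 1))) : Prop where
  mem : ∀ j, y j ∈ Alg (n + 1)
  sa : ∀ j, star (y j) = y j
  gen : ∃ M : ℝ, ∀ (i : Fin (n + 1)) (η : ℝ), 0 < η → ∃ q : FreeAlgebra ℂ (Fin K),
    ‖ev y q‖ ≤ M ∧ ‖(sc i - ev y q) (vac (n + 1))‖ ≤ η

/-- The polynomials `P` fix the letters of `S`, preserve hermitian tuples of matrices, and the joint moments up to the order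
`m` of the `P i` in free semicircular operators are those of `μ` up to `γ`. -/
structure Mdl (K : ℕ) (S : Finset (Fin K)) (μ : List (Fin K) → ℂ) (m : ℕ) (γ : ℝ)
    (P : Fin K → FreeAlgebra ℂ (Fin K)) : Prop where
  fix : ∀ i ∈ S, P i = FreeAlgebra.ι ℂ i
  her : ∀ (N : ℕ) (A : Fin K → Mat N), (∀ i, (A i).IsHermitian) → ∀ i, (ev A (P i)).IsHermitian
  mom : ∀ w : List (Fin K), w.length ≤ m →
    ‖mo (fun i => (ev sc (P i) : Fk K →L[ℂ] Fk K)) w - μ w‖ ≤ γ

/-- The data of the theorem. -/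
structure Dat (n K : ℕ) (S : Finset (Fin K)) (y : Fin K → (Fk (n + 1) →L[ℂ] Fk (n + 1))) :
    Prop where
  gen : GenG n K y
  one : ∀ j ∈ S, mo y [j, j] = 1
  mod : ∀ (m : ℕ) (γ : ℝ), 0 < γ → ∃ P : Fin K → FreeAlgebra ℂ (Fin K), Mdl K S (mo y) m γ P

/-- The inclusion of the polynomials in the letters of the block `j`. -/
def inc {k r : ℕ} (j : Fin k) : FreeAlgebra ℂ (Fin r) →ₐ[ℂ] FreeAlgebra ℂ (Fin k × Fin r) :=
  FreeAlgebra.lift ℂ fun l => FreeAlgebra.ι ℂ (j, l)

/-- The monomial of a word. -/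
def mnm {ι : Type} (w : List ι) : FreeAlgebra ℂ ι := (w.map (FreeAlgebra.ι ℂ)).prod

/-- A unital linear functional for which the blocks `j` are free. -/
def FreeFun (k r : ℕ) (φ : FreeAlgebra ℂ (Fin k × Fin r) →ₗ[ℂ] ℂ) : Prop :=
  φ 1 = 1 ∧ ∀ L : List (Fin k × FreeAlgebra ℂ (Fin r)), L ≠ [] →
    (L.map Prod.fst).IsChain (· ≠ ·) → (∀ a ∈ L, φ (inc a.1 a.2) = 0) →
    φ ((L.map fun a => inc a.1 a.2).prod) = 0

/-- The vacuum functional of a family of operators. -/
def vf {k : ℕ} {ι : Type} (y : ι → (Fk k →L[ℂ] Fk k)) : FreeAlgebra ℂ ι →ₗ[ℂ] ℂ where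
  toFun p := ⟪vac k, (ev y p) (vac k)⟫_ℂ
  map_add' p q := by
    rw [map_add, ContinuousLinearMap.add_apply, inner_add_right]
  map_smul' c p := by
    rw [map_smul, ContinuousLinearMap.smul_apply, inner_smul_right]
    rfl

/-- The family `x` of elements of `Alg (r + 1)` approximates the moments `μ` up to the order `m` and up to `γ`, and `x 0` is the
semicircular generator. -/
structure Apx (r : ℕ) (μ : List (Fin (r + 1)) → ℂ) (m : ℕ) (γ : ℝ)
    (x : Fin (r + 1) → (Fk (r + 1) →L[ℂ] Fk (r + 1))) : Prop where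
  mem : ∀ l, x l ∈ Alg (r + 1)
  sa : ∀ l, star (x l) = x l
  zero : x 0 = sc 0
  mom : ∀ w : List (Fin (r + 1)), w.length ≤ m → ‖mo x w - μ w‖ ≤ γ

/-- `k` free blocks of self-adjoint elements of `Alg (n + 1)`, every block is approximable, together they generate. -/
structure Cop (n k r : ℕ) (y : Fin k → Fin (r + 1) → (Fk (n + 1) →L[ℂ] Fk (n + 1))) : Prop where
  mem : ∀ j l, y j l ∈ Alg (n + 1)
  sa : ∀ j l, star (y j l) = y j l
  apx : ∀ (j : Fin k) (m : ℕ) (γ : ℝ), 0 < γ →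
    ∃ x : Fin (r + 1) → (Fk (r + 1) →L[ℂ] Fk (r + 1)), Apx r (mo (y j)) m γ x
  free : FreeFun k (r + 1) (vf fun a => y a.1 a.2)
  gen : ∃ M : ℝ, ∀ (i : Fin (n + 1)) (η : ℝ), 0 < η → ∃ q : FreeAlgebra ℂ (Fin k × Fin (r + 1)),
    ‖ev (fun a => y a.1 a.2) q‖ ≤ M ∧ ‖(sc i - ev (fun a => y a.1 a.2) q) (vac (n + 1))‖ ≤ η

/-- The family `y` with one index. -/
def flat {n k r : ℕ} (y : Fin k → Fin (r + 1) → (Fk (n + 1) →L[ℂ] Fk (n + 1)))
    (i : Fin (k * (r + 1))) : Fk (n + 1) →L[ℂ] Fk (n + 1) :=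
  y (finProdFinEquiv.symm i).1 (finProdFinEquiv.symm i).2

/-- The indices of the first members of the blocks `j ∈ S`. -/
def fst0 {k : ℕ} (r : ℕ) (S : Finset (Fin k)) : Finset (Fin (k * (r + 1))) :=
  S.map ⟨fun j => finProdFinEquiv (j, (0 : Fin (r + 1))), fun a b h => by
    simpa using congrArg Prod.fst (finProdFinEquiv.injective h)⟩

end Pool.FP
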