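import Pool.Agent.Work.MP_118406_fp.Defs

set_option autoImplicit false

/-!
# Free products of arbitrary algebras: interface

File of block `X`: `Pool/Agent/Work/MP_118406_fp/B_X.lean`: `import Pool.Agent.Work.MP_118406_fp.Interface` (and the file of the
model which is copied, if its auxiliary lemmas are used), the same `open` lines, `namespace Pool.FP`,
`theorem p_X (hA : Stmt_A) (hB : Stmt_B) .. : Stmt_X` with the blocks of the line `uses` in that order (`-` = none);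
auxiliary lemmas with the prefix `X_`.  All facts `Pool.FR.t_MXA`, `t_SDE`, .. of `Work/MP_118406_fr/All.lean` are PROVED and may be
used everywhere (they are imported); the models take them as hypotheses: write `Pool.FR.t_XYZ` instead.
-/

open scoped InnerProductSpace ComplexConjugate Topology BigOperators
open Set Filter MeasureTheory Pool.SI Pool.FR

noncomputable section

namespace Pool.FP

/-- BLOCK TRG (uses -): MODEL `MP_118406_fr/B_TR1.lean`, copied with `Gen` replaced by `GenG`, `MC k m γ N Y` by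
`MY K m γ (mo y) N Y` and `tau w` by `mo y w` (in the model the hypothesis `Gen.mom` is used once to replace the vacuum expectation of the words in `y` by `tau w`; here it is the
definition of `mo`). -/
def Stmt_TRG : Prop := ∀ (n K : ℕ) (y : Fin K → (Fk (n + 1) →L[ℂ] Fk (n + 1))), GenG n K y →
  ∀ (R : Finset (FreeAlgebra ℂ (Fin (n + 1) ⊕ Fin K))) (κ : ℝ), 0 < κ →
  ∃ (q : Fin (n + 1) → FreeAlgebra ℂ (Fin K)) (m : ℕ) (γ : ℝ), 0 < γ ∧
    ∀ (N : ℕ) (Y : Fin K → Mat N), 1 ≤ N → MY K m γ (mo y) N Y →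
      (∀ i, (ev Y (q i)).IsHermitian) ∧
      ∀ r ∈ R, ‖ntr (ev (Sum.elim (fun i => ev Y (q i)) Y) r) -
        ⟪vac (n + 1), (ev (Sum.elim sc y) r) (vac (n + 1))⟫_ℂ‖ ≤ κ

/-- BLOCK TAG (uses TRG): MODEL `MP_118406_fr/B_TRA.lean` (same replacements; `Stmt_TR1` becomes `Stmt_TRG`). -/
def Stmt_TAG : Prop := ∀ (n K : ℕ) (y : Fin K → (Fk (n + 1) →L[ℂ] Fk (n + 1))), GenG n K y →
  ∀ (p : Fin K → FreeAlgebra ℂ (Fin (n + 1))) (ε : ℝ), 0 < ε →
  (∀ j, ‖y j - ev sc (p j)‖ ≤ ε) → ∀ (m₁ : ℕ) (δ : ℝ), 0 < δ → ∃ (m : ℕ) (γ : ℝ), 0 < γ ∧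
    ∀ (N : ℕ) (Y : Fin K → Mat N), 1 ≤ N → MY K m γ (mo y) N Y →
      ∃ A : Fin (n + 1) → Mat N, (∀ i, OB 3 (A i)) ∧ MC (n + 1) m₁ δ N A ∧
        ∀ j, nn (ev A (p j) - Y j) ≤ 4 * ε ^ 2

/-- BLOCK LSG (uses TAG): MODEL `MP_118406_fr/S_LOS.lean` (`Stmt_TRA` becomes `Stmt_TAG`). -/
def Stmt_LSG : Prop := ∀ (n K : ℕ) (S : Finset (Fin K))
  (y : Fin K → (Fk (n + 1) →L[ℂ] Fk (n + 1))), GenG n K y →
  ∀ θ ε : ℝ, 0 < θ → θ ≤ 1 → 0 < ε → ε ≤ 1 → (∀ j ∈ S, Nth θ (y j (vac (n + 1))) ≤ ε ^ 2) →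
  ∃ (p : Fin K → FreeAlgebra ℂ (Fin (n + 1))) (m N₀ : ℕ) (γ : ℝ), 0 < γ ∧
    ∀ (N : ℕ) (f : Polynomial ℝ), N₀ ≤ N → 1 ≤ N → Clm N f →
    ∀ (Y : Fin K → Mat N) (x : Fin N × Fin N → ℝ), MY K m γ (mo y) N Y →
      (∀ j ≤ m, ‖ntr ((hm x : Mat N) ^ j) - cat j‖ ≤ γ) →
      ∃ (V : Mat N) (c : Fin n × Fin N × Fin N → ℝ), Uni V ∧ ∑ i, c i ^ 2 ≤ 9 * n * (N : ℝ) ^ 2 ∧
        (gs (Fin n × Fin N × Fin N)) {g | 144 * S.card * ε ^ 2 <
          ∑ j ∈ S, nn (FF p f x (fun i => Real.cos θ * c i + Real.sin θ * g i) j -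
            V * Y j * star V)} ≤ ENNReal.ofReal (1 / 4)

/-- BLOCK LVG (uses LSG): MODEL `MP_118406_fr/S_LVS.lean` (`Stmt_LOS` becomes `Stmt_LSG`).  For `j ∈ S` the model proves `nn (Y j) ≤ 2` from `MC` for the word `[j, j]` and
`tau [j, j] = 1`: here it is `MY` and the hypothesis `mo y [j, j] = 1` (only for `j ∈ S`, this is all that is needed). -/
def Stmt_LVG : Prop := ∀ (n K : ℕ) (S : Finset (Fin K))
  (y : Fin K → (Fk (n + 1) →L[ℂ] Fk (n + 1))), GenG n K y → (∀ j ∈ S, mo y [j, j] = 1) →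
  ∀ θ ε : ℝ, 0 < θ → θ ≤ 1 → 0 < ε → ε ≤ 1 → (∀ j ∈ S, Nth θ (y j (vac (n + 1))) ≤ ε ^ 2) →
  ∃ (p : Fin K → FreeAlgebra ℂ (Fin (n + 1))) (m N₀ : ℕ) (γ : ℝ), 0 < γ ∧
    ∀ (N : ℕ) (f : Polynomial ℝ) (L : ℕ) (v : Fin L → Mat N), N₀ ≤ N → 1 ≤ N → Clm N f →
    (∀ V : Mat N, Uni V → ∃ l, ∀ Y : Mat N,
      nn (V * Y * star V - v l * Y * star (v l)) ≤ 4 * ε ^ 2 * nn Y) →
    ∀ (Y : Fin K → Mat N) (x : Fin N × Fin N → ℝ), MY K m γ (mo y) N Y →
      (∀ j ≤ m, ‖ntr ((hm x : Mat N) ^ j) - cat j‖ ≤ γ) →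
      ENNReal.ofReal (1 / 2 * (Real.sqrt (2 * Real.pi) * Real.sin θ) ^ (n * N ^ 2)) ≤
        volume {b : Fin n × Fin N × Fin N → ℝ | GoodS S p f v ε Y x b}

/-- BLOCK MGP (uses -): polynomials in microstates are microstates.
PROOF.  `her` gives the first half of `MY`.  For every word `w` with `|w| ≤ m` the polynomial `p_w = (w.map P).prod` satisfies `ev a p_w = (w.map fun i => ev a (P i)).prod` for every `a` (`map_list_prod`,
`List.map_map`); by `t_WRD` (`Stmt_WRD`) there is `c_w` with `ev a p_w = c_w.sum fun u z => z • (u.map a).prod` for all `a`; so `ntr (ev A p_w) = ∑ c_w(u) ntr (A_u)` and `mo (fun i => ev sc (P i)) w = ∑ c_w(u) tau u`.  If `A` satisfies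
`MC K m' γ' N A` with `m' ≥` the lengths of all `u` in the supports of the finitely many `c_w`, and `γ' ∑ |c_w(u)| ≤ γ` for all these `w`, then `‖ntr (ev A p_w) - mo (..) w‖ ≤ γ`, and `Mdl.mom` gives another `γ`. -/
def Stmt_MGP : Prop := ∀ (K : ℕ) (S : Finset (Fin K)) (μ : List (Fin K) → ℂ) (m : ℕ) (γ : ℝ)
  (P : Fin K → FreeAlgebra ℂ (Fin K)), 0 < γ → Mdl K S μ m γ P → ∃ (m' : ℕ) (γ' : ℝ), 0 < γ' ∧
    ∀ (N : ℕ) (A : Fin K → Mat N), 1 ≤ N → MC K m' γ' N A →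
      MY K m (2 * γ) μ N (fun i => ev A (P i)) ∧ ∀ i ∈ S, ev A (P i) = A i

/-- BLOCK ASG (uses LVG, MGP): MODEL `MP_118406_fr/S_ASS.lean`.  The proof is the same with one change: for `m`, `γ` from LVG take `P` from `Dat.mod` for `m`, `γ/2` and `m'`, `γ'` from MGP; the good `g` are those
with `MC K m' γ' N (hmk g)` (measure `≥ 3/4`, `t_GOD`; the set is closed as in the model), and LVG is applied to `Y = fun i => ev (hmk g) (P i)`.  Since `Y j = hmk g j` for `j ∈ S`, the sets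
`{b | GoodS S p f v ε Y x b}` and `{b | GoodS S p f v ε (hmk g) x b}` are equal (`GoodS` contains only the `Y j`, `j ∈ S`: `Finset.sum_congr`).  The upper bound (`t_UPS`, `t_MES`) is unchanged. -/
def Stmt_ASG : Prop := ∃ C₁ : ℝ, 0 < C₁ ∧
  ∀ (n K : ℕ) (S : Finset (Fin K)) (y : Fin K → (Fk (n + 1) →L[ℂ] Fk (n + 1))), Dat n K S y →
  ∀ θ ε : ℝ, 0 < θ → θ ≤ 1 → 0 < ε → ε ≤ 1 → (∀ j ∈ S, Nth θ (y j (vac (n + 1))) ≤ ε ^ 2) →
  ∃ N₀ : ℕ, ∀ N : ℕ, N₀ ≤ N → 1 ≤ N →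
    (1 / 8) * Real.sin θ ^ (n * N ^ 2) ≤
      (C₁ / ε) ^ (N ^ 2) * (33 * ε) ^ (S.card * N ^ 2) * Real.exp (1 + 40 * n) ^ (N ^ 2)

/-- BLOCK COG (uses ASG): MODEL `MP_118406_fr/S_COS.lean`. -/
def Stmt_COG : Prop := ∀ n s : ℕ, 2 ≤ s → ∃ c : ℝ, 0 < c ∧ ∀ (K : ℕ) (S : Finset (Fin K)),
  S.card = s → ∀ y : Fin K → (Fk (n + 1) →L[ℂ] Fk (n + 1)), Dat n K S y →
  ∀ θ : ℝ, 0 < θ → θ ≤ 1 →
    c * θ ^ (2 * (n : ℝ) / ((s : ℝ) - 1)) ≤ ∑ j ∈ S, Nth θ (y j (vac (n + 1)))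

/-- BLOCK CRG (uses COG): MODEL `MP_118406_fr/S_CRS.lean`. -/
def Stmt_CRG : Prop := ∀ (n K : ℕ) (S : Finset (Fin K)), 2 ≤ S.card →
  ∀ y : Fin K → (Fk (n + 1) →L[ℂ] Fk (n + 1)), Dat n K S y → ∀ α : ℝ, 0 < α → α ≤ 1 →
    (∀ j ∈ S, Summable (fun w => (cnt w : ℝ) ^ α * ‖(y j (vac (n + 1))) w‖ ^ 2)) →
    α * ((S.card : ℝ) - 1) ≤ n ∧ (α < 1 → α * ((S.card : ℝ) - 1) < n)

/-- BLOCK DRG (uses COG): MODEL `MP_118406_fr/DGR.lean`.  (The model uses the norm of `y j Ω`, `‖y j Ω‖² = tau [j, j] = 1`: here `Dat.one`, `j ∈ S`, and `Dat.gen.sa`.) -/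
def Stmt_DRG : Prop := ∀ n s : ℕ, n + 1 ≤ s → 2 ≤ s → ∃ c : ℝ, 0 < c ∧
  ∀ (K : ℕ) (S : Finset (Fin K)), S.card = s →
  ∀ y : Fin K → (Fk (n + 1) →L[ℂ] Fk (n + 1)), Dat n K S y →
  ∀ (d : ℕ) (ε : ℝ) (ξ : Fin K → Fk (n + 1)), 1 ≤ d → 0 < ε → ε ≤ 1 →
    (∀ j ∈ S, ∀ w, d < cnt w → ξ j w = 0) → (∀ j ∈ S, ‖y j (vac (n + 1)) - ξ j‖ ≤ ε) →
    c ≤ (d : ℝ) ^ n * ε ^ (2 * (s - (n + 1)))

/-- BLOCK FMC (uses -): the joint moments of free blocks depend continuously on the moments of the blocks.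
PROOF.  Fix `φ`.  An item is a pair `(u, c)`: a word `u` and a flag; its value is `x_u = mnm u` if the flag is off and `x_u - φ(x_u)` if it is on (for `ψ`: `x_u - ψ(x_u)`), flagged items only for nonempty words in one block.
Call a list of items good if for every `γ > 0` there is `δ > 0` such that `|φ(product) - ψ(product)| ≤ γ` for every free `ψ` whose block moments up to the order `m` are within `δ`.  Claim: every list of total length `≤ m` is good; strong induction on the total length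
`ℓ`.  (a) It is enough to treat the lists without flags, that is words (remove the last flag: `x (v - φ v) y = x v y - φ(v) x y`, the second list is shorter; the numbers `φ(v)`, `φ(x y)` are fixed and
`ψ(v)`, `ψ(x y)` are close to them; induction on the number of flags).  (b) A word `w` of length `ℓ` is a product `v_1 .. v_b` of nonempty words in the blocks `j_1, .., j_b`, `j_a ≠ j_(a+1)` (`List.splitBy` or peel
off the first block by `takeWhile`/`dropWhile`).  `b ≤ 1`: hypothesis (or `φ 1 = ψ 1 = 1`).  If all `v_a` are flagged both values are `0` (freeness).  Remove the flags one after another from the last to the first: `v_1° .. v_t° v_(t+1) .. v_b = v_1° .. v_(t+1)° v_(t+2) .. v_b +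
φ(v_(t+1)) v_1° .. v_t° v_(t+2) .. v_b`, the last list has smaller total length (good by induction and (a) for shorter lengths).  So all of them are good, `t = 0` is the claim. -/
def Stmt_FMC : Prop := ∀ (k r : ℕ) (φ : FreeAlgebra ℂ (Fin k × Fin r) →ₗ[ℂ] ℂ), FreeFun k r φ →
  ∀ (m : ℕ) (γ : ℝ), 0 < γ → ∃ δ : ℝ, 0 < δ ∧
    ∀ ψ : FreeAlgebra ℂ (Fin k × Fin r) →ₗ[ℂ] ℂ, FreeFun k r ψ →
      (∀ (j : Fin k) (u : List (Fin r)), u.length ≤ m →
        ‖φ (inc j (mnm u)) - ψ (inc j (mnm u))‖ ≤ δ) →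
      ∀ w : List (Fin k × Fin r), w.length ≤ m → ‖φ (mnm w) - ψ (mnm w)‖ ≤ γ

/-- BLOCK FRS (uses -): disjoint blocks of semicircular operators are free.
PROOF.  Import also `Pool.Agent.Work.MP_118406_hc.All`: `Pool.HC.t_GEX`, `Pool.HC.t_CEN`.  Let `T j = fun i : Fin (k * r) => (finProdFinEquiv.symm i).1 = j`.  For `q : FreeAlgebra ℂ (Fin r)` the operator `x = ev Z (inc j (lift P q))`,
`Z a = sc (finProdFinEquiv a)`, is in `AG (T j)` (CEN (7), subalgebra).  With the notation of `Work/MP_118406_hc`: if `tau x = 0` and `ξ ∈ Hm (T j)` then `x ξ ∈ Hp (T j)` (GEX); `vac ∈ Hm (T j)` and `Hp (T j') ⊆ Hm (T j)` for `j' ≠ j` (CEN (4), (3)).  Induction on `L` from the right: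
`((L.map ..).prod) vac ∈ Hp (T (first index))`, orthogonal to `vac` (CEN (5)).  (`ev (fun a => ev Z (inc a.1 (P a.1 a.2))) (inc j q) = ev Z (inc j (lift (P j) q))`: both sides are algebra homomorphisms in `q`, `FreeAlgebra.hom_ext`.)  The first clause: `ev _ 1 = 1`, `‖vac‖ = 1`. -/
def Stmt_FRS : Prop := ∀ (k r : ℕ) (P : Fin k → Fin r → FreeAlgebra ℂ (Fin r)),
  FreeFun k r (vf fun a : Fin k × Fin r =>
    (ev (fun b : Fin k × Fin r => (sc (finProdFinEquiv b) : Fk (k * r) →L[ℂ] Fk (k * r)))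
      (inc a.1 (P a.1 a.2))))

/-- BLOCK APP (uses -): approximation by self-adjoint polynomials.
PROOF.  `x l = sc 0` for `l = 0`: `P 0 = ι 0`.  For `l ≠ 0`: by `t_SPL` polynomials `p_l` with `‖x l - ev sc p_l‖ ≤ η`; with `t_DAG` `P l = (1/2) • (p_l + p_l')`: `ev sc (P l)` is the real part, so `‖x l - ev sc (P l)‖ ≤ η` (`x l` is
self-adjoint, the `sc i` are self-adjoint: BAS), and for every star ring `R` with hermitian `a` the element `ev a (P l)` is self-adjoint.  The moments of length `≤ m` of the two families differ by at most `m (M + 1)^m η`, `M` a bound for the norms: choose `η` small (telescoping, or: the map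
`(a_l) ↦ ⟪Ω, a_w Ω⟫` is continuous for the operator norm, finitely many `w`). -/
def Stmt_APP : Prop := ∀ (r : ℕ) (μ : List (Fin (r + 1)) → ℂ) (m : ℕ) (γ : ℝ)
  (x : Fin (r + 1) → (Fk (r + 1) →L[ℂ] Fk (r + 1))), 0 < γ → Apx r μ m γ x →
  ∃ P : Fin (r + 1) → FreeAlgebra ℂ (Fin (r + 1)), P 0 = FreeAlgebra.ι ℂ 0 ∧
    (∀ (R : Type) [Ring R] [StarRing R] [Algebra ℂ R] [StarModule ℂ R] (a : Fin (r + 1) → R),
      (∀ i, star (a i) = a i) → ∀ l, star (ev a (P l)) = ev a (P l)) ∧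
    ∀ w : List (Fin (r + 1)), w.length ≤ m → ‖mo (fun l => ev sc (P l)) w - μ w‖ ≤ 2 * γ

/-- BLOCK CPD (uses FMC, FRS, APP): free approximable blocks satisfy `Dat`.
PROOF.  `gen`: `mem`, `sa` are clear; `gen`: rename the letters of `q` (`FreeAlgebra.lift (ι ∘ finProdFinEquiv)`, `ev (flat y) (rename q) = ev (fun a => y a.1 a.2) q`).  `one`: for `i = finProdFinEquiv (j, 0)`: `mo (flat y) [i, i] = mo (y j) [0, 0]`; by `Cop.apx` with `m = 2` and every `γ > 0` it is within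
`γ` of `mo x [0, 0]`, `x 0 = sc 0`, and `mo x [0, 0] = tau [0, 0] = 1` (SDE (4)).  `mod`: given `m`, `γ`: `δ` from FMC for `φ = vf (fun a => y a.1 a.2)` (`Cop.free`), `r + 1` letters, `m`, `γ`.  For every `j` take `x` from `Cop.apx` for `m`, `δ/2` and `P j` from APP (with `μ = mo (y j)`).  By FRS
`ψ = vf (fun a => ev (sc ∘ finProdFinEquiv) (inc a.1 (P a.1 a.2)))` is free; its block moments `ψ (inc j (mnm u))` are `mo (fun l => ev sc (P j l)) u` (renaming the letters by an injective map does not change `tau`: `t_EMB` and `t_WRD`), within `δ` of `mo (y j) u = φ (inc j (mnm u))`.  So FMC gives the moments up to `γ`.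
The polynomials `Q i = rename (inc j (P j l))`, `finProdFinEquiv (j, l) = i`, are the ones of `Mdl`: `fix` because `P j 0 = ι 0`; `her` by the second clause of APP (`R = Mat N`); `mom`: a word `w` in `Fin (k (r+1))` is the image of a word in the pairs. -/
def Stmt_CPD : Prop := ∀ (n k r : ℕ) (y : Fin k → Fin (r + 1) → (Fk (n + 1) →L[ℂ] Fk (n + 1))),
  Cop n k r y → ∀ S : Finset (Fin k), Dat n (k * (r + 1)) (fst0 r S) (flat y)

end Pool.FP
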